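import Mathlib

/-!
Project MT (MP_b8862a_ag): Goursat's lemma for Lie algebras of block diagonal endomorphisms.
-/

set_option autoImplicit false
set_option linter.unusedSectionVars false

namespace Pool.Agent.Helper43.MT

section matrix

variable {L n : Type*} [Field L] [CharZero L] [Fintype n] [DecidableEq n]

open Matrix

/-- A Lie ideal of the matrix algebra with a nonscalar element contains all traceless matrices. -/
theorem ideal_mat (𝔞 : Submodule L (Matrix n n L)) (h : ∀ a ∈ 𝔞, ∀ b, a * b - b * a ∈ 𝔞) {a : Matrix n n L}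
    (ha : a ∈ 𝔞) (hns : ∀ c : L, a ≠ c • (1 : Matrix n n L)) (A : Matrix n n L) (hA : A.trace = 0) : A ∈ 𝔞 := by
  classical
  have hEE : ∀ i j k l : n, single i j (1 : L) * single k l (1 : L) = if j = k then single i l (1 : L) else 0 := by
    intro i j k l
    by_cases hjk : j = k
    · rw [if_pos hjk, ← hjk, single_mul_single_same, mul_one]
    · rw [if_neg hjk]
      exact single_mul_single_of_ne (h := hjk) ..
  -- one matrix unit
  have s1 : ∃ k l : n, k ≠ l ∧ single k l (1 : L) ∈ 𝔞 := by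
    by_cases h1 : ∃ k l, k ≠ l ∧ a l k ≠ 0
    · obtain ⟨k, l, hkl, hne⟩ := h1
      refine ⟨k, l, hkl, ?_⟩
      have h2 := h _ (h _ ha (single k l (1 : L))) (single k l (1 : L))
      have hE : single k l (1 : L) * single k l (1 : L) = 0 := by rw [hEE, if_neg hkl.symm]
      have hEaE : single k l (1 : L) * a * single k l (1 : L) = a l k • single k l (1 : L) := by
        rw [single_mul_mul_single, smul_single]
        congr 1
        simp
      have h3 : (a * single k l (1 : L) - single k l (1 : L) * a) * single k l (1 : L) -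
          single k l (1 : L) * (a * single k l (1 : L) - single k l (1 : L) * a) =
          (-(2 * a l k)) • single k l (1 : L) := by
        rw [sub_mul, mul_sub, mul_assoc a, hE, mul_zero, zero_sub, ← mul_assoc, ← mul_assoc (single k l (1 : L)) (single k l (1 : L)) a,
          hE, zero_mul, sub_zero, hEaE, neg_smul, two_mul, add_smul]
        abel
      rw [h3] at h2
      have h4 : (-(2 * a l k)) ≠ 0 := neg_ne_zero.2 (mul_ne_zero two_ne_zero hne)
      have h5 := 𝔞.smul_mem (-(2 * a l k))⁻¹ h2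
      rwa [smul_smul, inv_mul_cancel₀ h4, one_smul] at h5
    · push Not at h1
      have hd : a = diagonal fun i => a i i := by
        ext i j
        by_cases hij : i = j
        · rw [hij, diagonal_apply_eq]
        · rw [diagonal_apply_ne _ hij]
          exact h1 j i (Ne.symm hij)
      obtain ⟨k, l, hkl⟩ : ∃ k l, a k k ≠ a l l := by
        by_contra hcon
        push Not at hcon
        rcases isEmpty_or_nonempty n with he | ⟨⟨i0⟩⟩
        · exact hns 0 (by ext i; exact he.elim i)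
        · refine hns (a i0 i0) ?_
          ext i j
          by_cases hij : i = j
          · rw [hij, Matrix.smul_apply, one_apply_eq, smul_eq_mul, mul_one]
            exact hcon j i0
          · rw [Matrix.smul_apply, one_apply_ne hij, smul_zero]
            exact h1 j i (Ne.symm hij)
      refine ⟨k, l, fun h => hkl (by rw [h]), ?_⟩
      have h2 := h _ ha (single k l (1 : L))
      have h3 : a * single k l (1 : L) - single k l (1 : L) * a = (a k k - a l l) • single k l (1 : L) := by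
        conv_lhs => rw [hd]
        ext i j
        rw [Matrix.sub_apply, diagonal_mul, mul_diagonal, Matrix.smul_apply, single_apply]
        split_ifs with h4
        · rw [h4.1, h4.2]
          simp
        · simp
      rw [h3] at h2
      have h4 : a k k - a l l ≠ 0 := sub_ne_zero.2 hkl
      have h5 := 𝔞.smul_mem (a k k - a l l)⁻¹ h2
      rwa [smul_smul, inv_mul_cancel₀ h4, one_smul] at h5
  -- all matrix units
  have hcol : ∀ k l j : n, k ≠ l → single k l (1 : L) ∈ 𝔞 → k ≠ j → single k j (1 : L) ∈ 𝔞 := by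
    intro k l j hkl hm hkj
    have h2 := h _ hm (single l j (1 : L))
    rwa [hEE, hEE, if_pos rfl, if_neg (Ne.symm hkj), sub_zero] at h2
  have hrow : ∀ k l i : n, k ≠ l → single k l (1 : L) ∈ 𝔞 → i ≠ l → single i l (1 : L) ∈ 𝔞 := by
    intro k l i hkl hm hil
    have h2 := h _ hm (single i k (1 : L))
    rw [hEE, hEE, if_pos rfl, if_neg (Ne.symm hil), zero_sub] at h2
    have h3 := 𝔞.neg_mem h2
    rwa [neg_neg] at h3
  have hop : ∀ k l : n, k ≠ l → single k l (1 : L) ∈ 𝔞 → single l k (1 : L) ∈ 𝔞 := by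
    intro k l hkl hm
    have h2 := h _ (h _ hm (single l k (1 : L))) (single l k (1 : L))
    rw [hEE, hEE, if_pos rfl, if_pos rfl, sub_mul, mul_sub, hEE, hEE, hEE, hEE, if_neg hkl, if_pos rfl, if_pos rfl,
      if_neg hkl, zero_sub, sub_zero] at h2
    have h3 : -single l k (1 : L) - single l k (1 : L) = (-2 : L) • single l k (1 : L) := by
      rw [neg_smul, two_smul]
      abel
    rw [h3] at h2
    have h5 := 𝔞.smul_mem (-2 : L)⁻¹ h2
    rwa [smul_smul, inv_mul_cancel₀ (neg_ne_zero.2 two_ne_zero), one_smul] at h5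
  obtain ⟨k, l, hkl, hm⟩ := s1
  have hall : ∀ i j : n, i ≠ j → single i j (1 : L) ∈ 𝔞 := by
    intro i j hij
    by_cases h1 : i = l
    · rw [h1] at hij ⊢
      exact hcol l k j hkl.symm (hop k l hkl hm) hij
    · exact hcol i l j h1 (hrow k l i hkl hm h1) hij
  have hdiag : ∀ i j : n, single i i (1 : L) - single j j (1 : L) ∈ 𝔞 := by
    intro i j
    by_cases hij : i = j
    · rw [hij, sub_self]
      exact 𝔞.zero_mem
    · have h2 := h _ (hall i j hij) (single j i (1 : L))
      rwa [hEE, hEE, if_pos rfl, if_pos rfl] at h2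
  have hAe : A = ∑ i, ∑ j, (if i = j then A i i • (single i i (1 : L) - single k k (1 : L)) else A i j • single i j (1 : L)) := by
    have h1 : ∀ i j, (if i = j then A i i • (single i i (1 : L) - single k k (1 : L)) else A i j • single i j (1 : L)) =
        single i j (A i j) - (if i = j then A i i • single k k (1 : L) else 0) := by
      intro i j
      by_cases hij : i = j
      · rw [if_pos hij, if_pos hij, ← hij, smul_sub, smul_single, smul_eq_mul, mul_one]
      · rw [if_neg hij, if_neg hij, smul_single, smul_eq_mul, mul_one, sub_zero]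
    simp only [h1, Finset.sum_sub_distrib, Finset.sum_ite_eq, Finset.mem_univ, if_true, ← Finset.sum_smul]
    have h2 : ∑ i, A i i = 0 := hA
    rw [h2, zero_smul, sub_zero]
    exact matrix_eq_sum_single A
  rw [hAe]
  refine 𝔞.sum_mem fun i _ => 𝔞.sum_mem fun j _ => ?_
  split_ifs with h1
  · exact 𝔞.smul_mem _ (hdiag _ _)
  · exact 𝔞.smul_mem _ (hall _ _ h1)

end matrix

variable {L : Type*} [Field L] [CharZero L]

/-- A Lie ideal of `End V` with a nonscalar element contains all traceless endomorphisms. -/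
theorem ideal_top {V : Type*} [AddCommGroup V] [Module L V] [FiniteDimensional L V]
    (𝔞 : Submodule L (Module.End L V)) (h : ∀ a ∈ 𝔞, ∀ b : Module.End L V, a * b - b * a ∈ 𝔞) {a : Module.End L V}
    (ha : a ∈ 𝔞) (hns : ∀ c : L, a ≠ c • (1 : Module.End L V)) (A : Module.End L V) (hA : LinearMap.trace L V A = 0) :
    A ∈ 𝔞 := by
  classical
  let b := Module.finBasis L V
  let φ := LinearMap.toMatrixAlgEquiv b
  have key := ideal_mat (𝔞.comap φ.symm.toLinearMap) (by
    intro x hx y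
    rw [Submodule.mem_comap] at hx ⊢
    have h1 := h _ hx (φ.symm y)
    have h2 : φ.symm.toLinearMap (x * y - y * x) = φ.symm.toLinearMap x * φ.symm y - φ.symm y * φ.symm.toLinearMap x := by
      simp only [AlgEquiv.toLinearMap_apply, map_sub, map_mul]
    rw [h2]
    exact h1) (a := φ a) (by
    rw [Submodule.mem_comap]
    simpa using ha) (by
    intro c hc
    apply hns c
    have h1 := congrArg φ.symm hc
    rw [AlgEquiv.symm_apply_apply, map_smul, map_one] at h1
    exact h1) (φ A) (by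
    rw [← hA, LinearMap.trace_eq_matrix_trace L b A]
    rfl)
  rw [Submodule.mem_comap] at key
  simpa using key


section single

variable {V : Type*} [AddCommGroup V] [Module L V] [FiniteDimensional L V]

/-- a nonzero traceless endomorphism is not scalar -/
theorem not_scalar {a : Module.End L V} (htr : LinearMap.trace L V a = 0) (hne : a ≠ 0) (c : L) :
    a ≠ c • (1 : Module.End L V) := by
  rintro rfl
  rw [map_smul, LinearMap.trace_one, smul_eq_mul] at htr
  rcases mul_eq_zero.1 htr with h | h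
  · exact hne (by rw [h, zero_smul])
  · have h1 : Module.finrank L V = 0 := by exact_mod_cast h
    have := Module.finrank_zero_iff.1 h1
    exact hne (LinearMap.ext fun x => Subsingleton.elim _ _)

theorem trace_comm0 (a b : Module.End L V) : LinearMap.trace L V (a * b - b * a) = 0 := by
  rw [map_sub, LinearMap.trace_mul_comm, sub_self]

/-- an endomorphism which commutes with all traceless endomorphisms is scalar -/
theorem exists_comm {y : Module.End L V} (hy : ∀ c : L, y ≠ c • (1 : Module.End L V)) :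
    ∃ A : Module.End L V, LinearMap.trace L V A = 0 ∧ A * y - y * A ≠ 0 := by
  classical
  by_contra hcon
  push Not at hcon
  let b := Module.finBasis L V
  let φ := LinearMap.toMatrixAlgEquiv b
  have h1 : φ y ∈ Set.range (Matrix.scalar (Fin (Module.finrank L V))) := by
    refine Matrix.mem_range_scalar_of_commute_single ?_
    intro i j hij
    have h2 := hcon (φ.symm (Matrix.single i j 1)) (by
      rw [LinearMap.trace_eq_matrix_trace L b]
      have h3 : LinearMap.toMatrix b b (φ.symm (Matrix.single i j 1)) = Matrix.single i j 1 :=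
        φ.apply_symm_apply _
      rw [h3]
      exact Matrix.trace_single_eq_of_ne _ _ _ hij)
    have h4 := congrArg φ (sub_eq_zero.1 h2)
    rw [map_mul, map_mul, AlgEquiv.apply_symm_apply] at h4
    exact h4
  obtain ⟨c, hc⟩ := h1
  apply hy c
  apply φ.injective
  rw [← hc, map_smul, map_one]
  ext i j
  simp [Matrix.one_apply, Matrix.diagonal_apply]

theorem exists_nonscalar (h : 2 ≤ Module.finrank L V) : ∃ y : Module.End L V, ∀ c : L, y ≠ c • (1 : Module.End L V) := by
  by_contra hcon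
  push Not at hcon
  have h1 : Module.finrank L (Module.End L V) ≤ 1 :=
    finrank_le_one (1 : Module.End L V) fun w => by
      obtain ⟨c, hc⟩ := hcon w
      exact ⟨c, hc.symm⟩
  rw [Module.finrank_linearMap] at h1
  nlinarith

end single

section goursat

variable {ι : Type} [Fintype ι] [DecidableEq ι] {L : Type} [Field L] [CharZero L] {V : ι → Type}
  [∀ i, AddCommGroup (V i)] [∀ i, Module L (V i)] [∀ i, FiniteDimensional L (V i)]

/-- Some element is scalar on `V j`, but not on `V i`. -/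
def Sep (𝔳 : Submodule L (∀ i, Module.End L (V i))) (i j : ι) : Prop :=
  ∃ x ∈ 𝔳, (∃ c : L, x j = c • (1 : Module.End L (V j))) ∧ ∀ c : L, x i ≠ c • (1 : Module.End L (V i))

/-- `T` intertwines `V i` and `V j` up to scalars. -/
def Lk (𝔳 : Submodule L (∀ i, Module.End L (V i))) (i j : ι) (T : V i ≃ₗ[L] V j) : Prop :=
  ∀ x ∈ 𝔳, ∃ c : L, x j ∘ₗ T.toLinearMap - T.toLinearMap ∘ₗ x i = c • T.toLinearMap

/-- `T` intertwines `V i` and the dual of `V j` up to scalars. -/
def Lk' (𝔳 : Submodule L (∀ i, Module.End L (V i))) (i j : ι) (T : V i ≃ₗ[L] Module.Dual L (V j)) : Prop :=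
  ∀ x ∈ 𝔳, ∃ c : L, (x j).dualMap ∘ₗ T.toLinearMap + T.toLinearMap ∘ₗ x i = c • T.toLinearMap

variable {𝔳 : Submodule L (∀ i, Module.End L (V i))}

theorem Lk.apply {i j : ι} {T : V i ≃ₗ[L] V j} (h : Lk 𝔳 i j T) {x} (hx : x ∈ 𝔳) :
    ∃ c : L, ∀ u, x j (T u) = T (x i u) + c • T u := by
  obtain ⟨c, hc⟩ := h x hx
  refine ⟨c, fun u => ?_⟩
  have h1 := LinearMap.congr_fun hc u
  simp only [LinearMap.sub_apply, LinearMap.comp_apply, LinearEquiv.coe_coe, LinearMap.smul_apply] at h1
  rw [← h1]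
  abel

theorem Lk'.apply {i j : ι} {T : V i ≃ₗ[L] Module.Dual L (V j)} (h : Lk' 𝔳 i j T) {x} (hx : x ∈ 𝔳) :
    ∃ c : L, ∀ u, (x j).dualMap (T u) = -T (x i u) + c • T u := by
  obtain ⟨c, hc⟩ := h x hx
  refine ⟨c, fun u => ?_⟩
  have h1 := LinearMap.congr_fun hc u
  simp only [LinearMap.add_apply, LinearMap.comp_apply, LinearEquiv.coe_coe, LinearMap.smul_apply] at h1
  rw [← h1]
  abel

/-- The first step: separated blocks. -/
theorem claimA (hl : ∀ x ∈ 𝔳, ∀ y ∈ 𝔳, x * y - y * x ∈ 𝔳)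
    (hfull : ∀ i, 2 ≤ Module.finrank L (V i) → ∀ y : Module.End L (V i), ∃ x ∈ 𝔳, ∃ c : L, x i + c • 1 = y)
    {i : ι} (hi : 2 ≤ Module.finrank L (V i)) (F : Finset ι) (hF : ∀ j ∈ F, Sep 𝔳 i j) :
    ∀ A : Module.End L (V i), LinearMap.trace L (V i) A = 0 → ∃ x ∈ 𝔳, x i = A ∧ ∀ j ∈ F, x j = 0 := by
  classical
  let 𝔞 : Finset ι → Submodule L (Module.End L (V i)) := fun F =>
    { carrier := {A | ∃ x ∈ 𝔳, x i = A ∧ ∀ j ∈ F, x j = 0}
      zero_mem' := ⟨0, 𝔳.zero_mem, rfl, fun j _ => rfl⟩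
      add_mem' := by
        rintro a b ⟨x, hx, rfl, hx'⟩ ⟨y, hy, rfl, hy'⟩
        exact ⟨x + y, 𝔳.add_mem hx hy, rfl, fun j hj => by rw [Pi.add_apply, hx' j hj, hy' j hj, add_zero]⟩
      smul_mem' := by
        rintro c a ⟨x, hx, rfl, hx'⟩
        exact ⟨c • x, 𝔳.smul_mem c hx, rfl, fun j hj => by rw [Pi.smul_apply, hx' j hj, smul_zero]⟩ }
  have hid : ∀ F, ∀ a ∈ 𝔞 F, ∀ b : Module.End L (V i), a * b - b * a ∈ 𝔞 F := by
    rintro F a ⟨x, hx, rfl, hx'⟩ b
    obtain ⟨y, hy, c, rfl⟩ := hfull i hi b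
    refine ⟨x * y - y * x, hl x hx y hy, ?_, fun j hj => ?_⟩
    · rw [Pi.sub_apply, Pi.mul_apply, Pi.mul_apply, mul_add, add_mul, mul_smul_comm, smul_mul_assoc, mul_one, one_mul]
      abel
    · rw [Pi.sub_apply, Pi.mul_apply, Pi.mul_apply, hx' j hj, zero_mul, mul_zero, sub_zero]
  have key : ∀ F : Finset ι, (∀ j ∈ F, Sep 𝔳 i j) → ∃ a ∈ 𝔞 F, ∀ c : L, a ≠ c • (1 : Module.End L (V i)) := by
    intro F
    induction F using Finset.induction_on with
    | empty =>
      intro _
      obtain ⟨y, hy⟩ := exists_nonscalar hi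
      obtain ⟨x, hx, c, hc⟩ := hfull i hi y
      refine ⟨x i, ⟨x, hx, rfl, fun j hj => absurd hj (Finset.notMem_empty _)⟩, fun c' h => hy (c' + c) ?_⟩
      rw [← hc, h, add_smul]
    | insert j F hjF ih =>
      intro hF
      obtain ⟨a, ha, hns⟩ := ih fun k hk => hF k (Finset.mem_insert_of_mem hk)
      obtain ⟨y, hy, ⟨c, hc⟩, hyi⟩ := hF j (Finset.mem_insert_self _ _)
      obtain ⟨A, hA, hne⟩ := exists_comm hyi
      obtain ⟨x, hx, hxi, hx'⟩ := ideal_top (𝔞 F) (hid F) ha hns A hA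
      refine ⟨A * y i - y i * A, ⟨x * y - y * x, hl x hx y hy, ?_, fun k hk => ?_⟩,
        fun c' => not_scalar (trace_comm0 _ _) hne c'⟩
      · rw [Pi.sub_apply, Pi.mul_apply, Pi.mul_apply, hxi]
      · rw [Pi.sub_apply, Pi.mul_apply, Pi.mul_apply]
        rcases Finset.mem_insert.1 hk with rfl | hk
        · rw [hc, mul_smul_comm, smul_mul_assoc, mul_one, one_mul, sub_self]
        · rw [hx' k hk, zero_mul, mul_zero, sub_zero]
  obtain ⟨a, ha, hns⟩ := key F hF
  intro A hA
  exact ideal_top (𝔞 F) (hid F) ha hns A hA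

/-- The second step: the linked blocks. -/
theorem claimB (hl : ∀ x ∈ 𝔳, ∀ y ∈ 𝔳, x * y - y * x ∈ 𝔳)
    (hfull : ∀ i, 2 ≤ Module.finrank L (V i) → ∀ y : Module.End L (V i), ∃ x ∈ 𝔳, ∃ c : L, x i + c • 1 = y)
    {i : ι} (hi : 2 ≤ Module.finrank L (V i)) (A : Module.End L (V i)) (hA : LinearMap.trace L (V i) A = 0) :
    ∃ x ∈ 𝔳, x i = A ∧ (∀ j, Sep 𝔳 i j → x j = 0) ∧
      (∀ j (T : V i ≃ₗ[L] V j), Lk 𝔳 i j T → ∀ u, x j (T u) = T (x i u)) ∧
      (∀ j (T : V i ≃ₗ[L] Module.Dual L (V j)), Lk' 𝔳 i j T → ∀ u, (x j).dualMap (T u) = -T (x i u)) := by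
  classical
  let 𝔟 : Submodule L (Module.End L (V i)) :=
    { carrier := {A | ∃ x ∈ 𝔳, x i = A ∧ (∀ j, Sep 𝔳 i j → x j = 0) ∧
        (∀ j (T : V i ≃ₗ[L] V j), Lk 𝔳 i j T → ∀ u, x j (T u) = T (x i u)) ∧
        (∀ j (T : V i ≃ₗ[L] Module.Dual L (V j)), Lk' 𝔳 i j T → ∀ u, (x j).dualMap (T u) = -T (x i u))}
      zero_mem' := ⟨0, 𝔳.zero_mem, rfl, fun j _ => rfl, fun j T _ u => by simp, fun j T _ u => by
        simp only [Pi.zero_apply, LinearMap.zero_apply, map_zero, neg_zero]
        ext v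
        simp⟩
      add_mem' := by
        rintro a b ⟨x, hx, rfl, hx1, hx2, hx3⟩ ⟨y, hy, rfl, hy1, hy2, hy3⟩
        refine ⟨x + y, 𝔳.add_mem hx hy, rfl, fun j hj => by rw [Pi.add_apply, hx1 j hj, hy1 j hj, add_zero],
          fun j T hT u => ?_, fun j T hT u => ?_⟩
        · rw [Pi.add_apply, Pi.add_apply, LinearMap.add_apply, LinearMap.add_apply, hx2 j T hT, hy2 j T hT, map_add]
        · have h1 : ((x + y) j).dualMap (T u) = (x j).dualMap (T u) + (y j).dualMap (T u) := by
            ext v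
            simp
          rw [h1, hx3 j T hT, hy3 j T hT, Pi.add_apply, LinearMap.add_apply, map_add, neg_add]
      smul_mem' := by
        rintro c a ⟨x, hx, rfl, hx1, hx2, hx3⟩
        refine ⟨c • x, 𝔳.smul_mem c hx, rfl, fun j hj => by rw [Pi.smul_apply, hx1 j hj, smul_zero],
          fun j T hT u => ?_, fun j T hT u => ?_⟩
        · rw [Pi.smul_apply, Pi.smul_apply, LinearMap.smul_apply, LinearMap.smul_apply, hx2 j T hT, map_smul]
        · have h1 : ((c • x) j).dualMap (T u) = c • (x j).dualMap (T u) := by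
            ext v
            simp
          rw [h1, hx3 j T hT, Pi.smul_apply, LinearMap.smul_apply, map_smul, smul_neg] }
  -- commutators are exact
  have hcom : ∀ x ∈ 𝔳, ∀ y ∈ 𝔳, (∀ j (T : V i ≃ₗ[L] V j), Lk 𝔳 i j T → ∀ u, (x * y - y * x) j (T u) =
      T ((x * y - y * x) i u)) ∧ (∀ j (T : V i ≃ₗ[L] Module.Dual L (V j)), Lk' 𝔳 i j T → ∀ u,
      ((x * y - y * x) j).dualMap (T u) = -T ((x * y - y * x) i u)) := by
    intro x hx y hy
    constructor
    · intro j T hT u
      obtain ⟨c, hc⟩ := hT.apply hx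
      obtain ⟨c', hc'⟩ := hT.apply hy
      have e1 : (x * y - y * x) j (T u) = x j (y j (T u)) - y j (x j (T u)) := rfl
      have e2 : (x * y - y * x) i u = x i (y i u) - y i (x i u) := rfl
      rw [e1, e2, hc', hc, map_add, map_add, map_smul, map_smul, hc, hc', hc, hc', map_sub, smul_add, smul_add,
        smul_smul, smul_smul, mul_comm c c']
      abel
    · intro j T hT u
      obtain ⟨c, hc⟩ := hT.apply hx
      obtain ⟨c', hc'⟩ := hT.apply hy
      have e1 : ((x * y - y * x) j).dualMap (T u) = (y j).dualMap ((x j).dualMap (T u)) -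
          (x j).dualMap ((y j).dualMap (T u)) := by
        ext v
        simp [map_sub]
      have e2 : (x * y - y * x) i u = x i (y i u) - y i (x i u) := rfl
      rw [e1, e2, hc', hc, map_add, map_add, map_smul, map_smul, map_neg, map_neg, hc, hc', hc, hc', map_sub, smul_add,
        smul_add, smul_smul, smul_smul, mul_comm c c', smul_neg, smul_neg]
      abel
  have hid : ∀ a ∈ 𝔟, ∀ b : Module.End L (V i), a * b - b * a ∈ 𝔟 := by
    rintro a ⟨x, hx, rfl, hx1, hx2, hx3⟩ b
    obtain ⟨y, hy, c, rfl⟩ := hfull i hi b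
    refine ⟨x * y - y * x, hl x hx y hy, ?_, fun j hj => ?_, (hcom x hx y hy).1, (hcom x hx y hy).2⟩
    · rw [Pi.sub_apply, Pi.mul_apply, Pi.mul_apply, mul_add, add_mul, mul_smul_comm, smul_mul_assoc, mul_one, one_mul]
      abel
    · rw [Pi.sub_apply, Pi.mul_apply, Pi.mul_apply, hx1 j hj, zero_mul, mul_zero, sub_zero]
  obtain ⟨y0, hy0⟩ := exists_nonscalar hi
  obtain ⟨A1, hA1, hne1⟩ := exists_comm hy0
  have hA1ne : A1 ≠ 0 := by
    rintro rfl
    exact hne1 (by rw [zero_mul, mul_zero, sub_zero])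
  obtain ⟨A2, hA2, hne2⟩ := exists_comm (fun c => not_scalar hA1 hA1ne c)
  have hsepA := claimA hl hfull hi (Finset.univ.filter fun j => Sep 𝔳 i j) (fun j hj => (Finset.mem_filter.1 hj).2)
  obtain ⟨x1, hx1, hx1i, hx1s⟩ := hsepA A1 hA1
  obtain ⟨x2, hx2, hx2i, hx2s⟩ := hsepA A2 hA2
  have hmem : A2 * A1 - A1 * A2 ∈ 𝔟 := by
    refine ⟨x2 * x1 - x1 * x2, hl x2 hx2 x1 hx1, ?_, fun j hj => ?_, (hcom x2 hx2 x1 hx1).1, (hcom x2 hx2 x1 hx1).2⟩
    · rw [Pi.sub_apply, Pi.mul_apply, Pi.mul_apply, hx1i, hx2i]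
    · rw [Pi.sub_apply, Pi.mul_apply, Pi.mul_apply, hx1s j (Finset.mem_filter.2 ⟨Finset.mem_univ j, hj⟩), mul_zero,
        zero_mul, sub_zero]
  exact ideal_top 𝔟 hid hmem (fun c => not_scalar (trace_comm0 _ _) hne2 c) A hA

/-- Not separated, dimension at least two. -/
def Eqv (𝔳 : Submodule L (∀ i, Module.End L (V i))) (i j : ι) : Prop :=
  2 ≤ Module.finrank L (V i) ∧ ¬ Sep 𝔳 i j

theorem Eqv.imp {i j : ι} (h : Eqv 𝔳 i j) {x} (hx : x ∈ 𝔳) (hj : ∃ c : L, x j = c • (1 : Module.End L (V j))) :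
    ∃ c : L, x i = c • (1 : Module.End L (V i)) := by
  by_contra hcon
  push Not at hcon
  exact h.2 ⟨x, hx, hj, hcon⟩

end goursat

/-- **BLOCK G**, Goursat's lemma -/
theorem goursat {L ι : Type} [Field L] [CharZero L] [Fintype ι] [DecidableEq ι] {V : ι → Type}
    [∀ i, AddCommGroup (V i)] [∀ i, Module L (V i)] [∀ i, FiniteDimensional L (V i)]
    (𝔳 : Submodule L (∀ i, Module.End L (V i))) (hl : ∀ x ∈ 𝔳, ∀ y ∈ 𝔳, x * y - y * x ∈ 𝔳)
    (hfull : ∀ i, 2 ≤ Module.finrank L (V i) → ∀ y : Module.End L (V i), ∃ x ∈ 𝔳, ∃ c : L, x i + c • 1 = y)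
    (hlink : ∀ i j, 2 ≤ Module.finrank L (V i) →
      (∀ x ∈ 𝔳, (∃ c : L, x j = c • 1) → ∃ c : L, x i = c • 1) →
      (∃ T : V i ≃ₗ[L] V j, ∀ x ∈ 𝔳, ∃ c : L,
        x j ∘ₗ T.toLinearMap - T.toLinearMap ∘ₗ x i = c • T.toLinearMap) ∨
      (∃ T : V i ≃ₗ[L] Module.Dual L (V j), ∀ x ∈ 𝔳, ∃ c : L,
        (x j).dualMap ∘ₗ T.toLinearMap + T.toLinearMap ∘ₗ x i = c • T.toLinearMap))
    (X : ∀ i, Module.End L (V i)) (htr : ∀ i, LinearMap.trace L (V i) (X i) = 0)
    (hX : ∀ i j (T : V i ≃ₗ[L] V j),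
      (∀ x ∈ 𝔳, ∃ c : L, x j ∘ₗ T.toLinearMap - T.toLinearMap ∘ₗ x i = c • T.toLinearMap) →
      X j ∘ₗ T.toLinearMap = T.toLinearMap ∘ₗ X i)
    (hX' : ∀ i j (T : V i ≃ₗ[L] Module.Dual L (V j)),
      (∀ x ∈ 𝔳, ∃ c : L, (x j).dualMap ∘ₗ T.toLinearMap + T.toLinearMap ∘ₗ x i = c • T.toLinearMap) →
      (X j).dualMap ∘ₗ T.toLinearMap + T.toLinearMap ∘ₗ X i = 0) : X ∈ 𝔳 := by
  classical
  -- the linkage
  have hlk : ∀ i j, Eqv 𝔳 i j → (∃ T : V i ≃ₗ[L] V j, Lk 𝔳 i j T) ∨
      (∃ T : V i ≃ₗ[L] Module.Dual L (V j), Lk' 𝔳 i j T) :=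
    fun i j h => hlink i j h.1 fun x hx hj => h.imp hx hj
  have hdim : ∀ i j, Eqv 𝔳 i j → 2 ≤ Module.finrank L (V j) := by
    intro i j h
    rcases hlk i j h with ⟨T, _⟩ | ⟨T, _⟩
    · rw [← T.finrank_eq]
      exact h.1
    · have h1 := T.finrank_eq
      rw [Subspace.dual_finrank_eq] at h1
      rw [← h1]
      exact h.1
  have hsymm : ∀ i j, Eqv 𝔳 i j → Eqv 𝔳 j i := by
    intro i j h
    refine ⟨hdim i j h, ?_⟩
    rintro ⟨x, hx, ⟨c0, hc0⟩, hns⟩
    rcases hlk i j h with ⟨T, hT⟩ | ⟨T, hT⟩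
    · obtain ⟨c, hc⟩ := hT.apply hx
      refine hns (c0 + c) (LinearMap.ext fun v => ?_)
      obtain ⟨u, rfl⟩ := T.surjective v
      rw [hc, hc0, LinearMap.smul_apply, LinearMap.smul_apply, Module.End.one_apply, Module.End.one_apply, map_smul,
        add_smul]
    · obtain ⟨c, hc⟩ := hT.apply hx
      have h1 : ∀ f : Module.Dual L (V j), (x j).dualMap f = (c - c0) • f := by
        intro f
        obtain ⟨u, rfl⟩ := T.surjective f
        rw [hc, hc0, LinearMap.smul_apply, Module.End.one_apply, map_smul]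
        ext v
        simp only [LinearMap.add_apply, LinearMap.neg_apply, LinearMap.smul_apply, smul_eq_mul]
        ring
      refine hns (c - c0) (LinearMap.ext fun v => ?_)
      rw [← sub_eq_zero, ← Module.forall_dual_apply_eq_zero_iff L]
      intro f
      have h2 := LinearMap.congr_fun (h1 f) v
      rw [LinearMap.dualMap_apply] at h2
      rw [map_sub, h2]
      simp
  have htrans : ∀ i j k, Eqv 𝔳 i j → Eqv 𝔳 j k → Eqv 𝔳 i k := by
    intro i j k h1 h2
    refine ⟨h1.1, ?_⟩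
    rintro ⟨x, hx, hk, hns⟩
    obtain ⟨c, hc⟩ := h1.imp hx (h2.imp hx hk)
    exact hns c hc
  have hrefl : ∀ i, 2 ≤ Module.finrank L (V i) → Eqv 𝔳 i i := by
    intro i hi
    refine ⟨hi, ?_⟩
    rintro ⟨x, hx, ⟨c, hc⟩, hns⟩
    exact hns c hc
  -- the elements `y i`
  have hy : ∀ i, ∃ y ∈ 𝔳, (2 ≤ Module.finrank L (V i) → (∀ j, Eqv 𝔳 i j → y j = X j) ∧ ∀ j, ¬ Eqv 𝔳 i j → y j = 0) := by
    intro i
    by_cases hi : 2 ≤ Module.finrank L (V i)
    · obtain ⟨y, hy, hyi, hys, hyT, hyT'⟩ := claimB hl hfull hi (X i) (htr i)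
      refine ⟨y, hy, fun _ => ⟨fun j hj => ?_, fun j hj => hys j ?_⟩⟩
      · rcases hlk i j hj with ⟨T, hT⟩ | ⟨T, hT⟩
        · refine LinearMap.ext fun v => ?_
          obtain ⟨u, rfl⟩ := T.surjective v
          rw [hyT j T hT, hyi]
          exact (LinearMap.congr_fun (hX i j T hT) u).symm
        · have h1 : ∀ f : Module.Dual L (V j), (y j).dualMap f = (X j).dualMap f := by
            intro f
            obtain ⟨u, rfl⟩ := T.surjective f
            rw [hyT' j T hT, hyi]
            have h2 := LinearMap.congr_fun (hX' i j T hT) u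
            simp only [LinearMap.add_apply, LinearMap.comp_apply, LinearEquiv.coe_coe, LinearMap.zero_apply] at h2
            exact (eq_neg_of_add_eq_zero_left h2).symm
          refine LinearMap.ext fun v => ?_
          rw [← sub_eq_zero, ← Module.forall_dual_apply_eq_zero_iff L]
          intro f
          have h2 := LinearMap.congr_fun (h1 f) v
          rw [LinearMap.dualMap_apply, LinearMap.dualMap_apply] at h2
          rw [map_sub, h2, sub_self]
      · by_contra hcon
        exact hj ⟨hi, hcon⟩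
    · exact ⟨0, 𝔳.zero_mem, fun h => absurd h hi⟩
  choose y hyv hy using hy
  set N : ι → ℕ := fun i => (Finset.univ.filter fun j => Eqv 𝔳 i j).card with hN
  have hNe : ∀ i j, Eqv 𝔳 i j → N i = N j := by
    intro i j h
    have h2 : (Finset.univ.filter fun k => Eqv 𝔳 i k) = Finset.univ.filter fun k => Eqv 𝔳 j k := by
      ext k
      simp only [Finset.mem_filter, Finset.mem_univ, true_and]
      exact ⟨fun h1 => htrans _ _ _ (hsymm _ _ h) h1, fun h1 => htrans _ _ _ h h1⟩
    simp only [hN, h2]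
  have hXe : X = ∑ i, if 2 ≤ Module.finrank L (V i) then ((N i : ℕ) : L)⁻¹ • y i else 0 := by
    funext j
    rw [Finset.sum_apply]
    by_cases hj : 2 ≤ Module.finrank L (V j)
    · have h1 : ∀ i, (if 2 ≤ Module.finrank L (V i) then ((N i : ℕ) : L)⁻¹ • y i else 0) j =
          if Eqv 𝔳 j i then ((N j : ℕ) : L)⁻¹ • X j else 0 := by
        intro i
        by_cases h2 : Eqv 𝔳 j i
        · have h3 := hsymm _ _ h2
          rw [if_pos h3.1, if_pos h2, Pi.smul_apply, (hy i h3.1).1 j h3, hNe i j h3]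
        · rw [if_neg h2]
          by_cases h3 : 2 ≤ Module.finrank L (V i)
          · rw [if_pos h3, Pi.smul_apply, (hy i h3).2 j fun h => h2 (hsymm _ _ h), smul_zero]
          · rw [if_neg h3]
            rfl
      rw [Finset.sum_congr rfl fun i _ => h1 i, ← Finset.sum_filter, Finset.sum_const, ← Nat.cast_smul_eq_nsmul L,
        smul_smul, mul_inv_cancel₀, one_smul]
      have h2 : 0 < (Finset.univ.filter fun i => Eqv 𝔳 j i).card :=
        Finset.card_pos.2 ⟨j, Finset.mem_filter.2 ⟨Finset.mem_univ j, hrefl j hj⟩⟩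
      exact_mod_cast h2.ne'
    · have h0 : X j = 0 := by
        by_contra hne
        have h1 : Module.finrank L (V j) ≤ 1 := by omega
        obtain ⟨v, hv⟩ := finrank_le_one_iff.1 h1
        -- `X j` is scalar
        obtain ⟨c, hc⟩ := hv (X j v)
        refine not_scalar (htr j) hne c (LinearMap.ext fun w => ?_)
        obtain ⟨d, rfl⟩ := hv w
        rw [map_smul, ← hc, LinearMap.smul_apply, Module.End.one_apply, smul_comm]
      have h1 : ∀ i, (if 2 ≤ Module.finrank L (V i) then ((N i : ℕ) : L)⁻¹ • y i else 0) j = 0 := by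
        intro i
        by_cases h3 : 2 ≤ Module.finrank L (V i)
        · rw [if_pos h3, Pi.smul_apply, (hy i h3).2 j fun h => hj (hdim _ _ h), smul_zero]
        · rw [if_neg h3]
          rfl
      rw [h0, Finset.sum_eq_zero fun i _ => h1 i]
  rw [hXe]
  refine 𝔳.sum_mem fun i _ => ?_
  split_ifs
  · exact 𝔳.smul_mem _ (hyv i)
  · exact 𝔳.zero_mem

end Pool.Agent.Helper43.MT
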